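import Mathlib
import Pool.Agent.TH142.Recip.Conormal

/-!
# The dual variety of a reciprocal linear space

`ℓ 0, …, ℓ n` are linear forms on `ℂ ^ (d + 1)` that span the dual space. We show: if their matroid
is connected, then the dual variety of the reciprocal linear space is a hypersurface of degree
`2 ^ d β`. All projective varieties are given by their affine cones in `ℂ ^ (n + 1)`.
-/

namespace Pool.Agent.Results.MP_0aec2a_ag.DualReciprocal

open Module MvPolynomial

variable {n d : ℕ}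

/-- The rank function of the matroid `M(L)`: the dimension of the span of the forms in `S`. -/
noncomputable def rank (ℓ : Fin (n + 1) → Dual ℂ (Fin (d + 1) → ℂ))
    (S : Finset (Fin (n + 1))) : ℕ :=
  finrank ℂ (Submodule.span ℂ (ℓ '' (S : Set (Fin (n + 1)))))

/-- The matroid `M(L)` is connected: the ground set is not the disjoint union of two nonempty
sets `S` and `Sᶜ` with `r(S) + r(Sᶜ) = r(E)`. -/
def MatroidConnected (ℓ : Fin (n + 1) → Dual ℂ (Fin (d + 1) → ℂ)) : Prop :=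
  ∀ S : Finset (Fin (n + 1)), S.Nonempty → Sᶜ.Nonempty →
    rank ℓ S + rank ℓ Sᶜ ≠ rank ℓ Finset.univ

/-- The beta invariant `(-1)^{r(E)} ∑_S (-1)^{|S|} r(S)` of `M(L)`. -/
noncomputable def beta (ℓ : Fin (n + 1) → Dual ℂ (Fin (d + 1) → ℂ)) : ℤ :=
  (-1) ^ (rank ℓ Finset.univ) * ∑ S : Finset (Fin (n + 1)), (-1) ^ S.card * (rank ℓ S : ℤ)

/-- The vectors `(1/ℓ_0(t), …, 1/ℓ_n(t))` with all `ℓ_i(t)` nonzero. -/
def reciprocals (ℓ : Fin (n + 1) → Dual ℂ (Fin (d + 1) → ℂ)) : Set (Fin (n + 1) → ℂ) :=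
  {y | ∃ t : Fin (d + 1) → ℂ, (∀ i, ℓ i t ≠ 0) ∧ ∀ i, y i = (ℓ i t)⁻¹}

/-- The affine cone over the reciprocal linear space `L^{-1}`: the Zariski closure of the set of
reciprocals. -/
def reciprocalCone (ℓ : Fin (n + 1) → Dual ℂ (Fin (d + 1) → ℂ)) : Set (Fin (n + 1) → ℂ) :=
  zeroLocus ℂ (vanishingIdeal ℂ (reciprocals ℓ))

/-- The Zariski tangent space of the affine cone over `L^{-1}` at `y`. -/
noncomputable def tangentSpace (ℓ : Fin (n + 1) → Dual ℂ (Fin (d + 1) → ℂ))
    (y : Fin (n + 1) → ℂ) : Submodule ℂ (Fin (n + 1) → ℂ) where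
  carrier := {v | ∀ P ∈ vanishingIdeal ℂ (reciprocals ℓ), ∑ i, aeval y (pderiv i P) * v i = 0}
  add_mem' := by
    intro v w hv hw P hP
    have h1 := hv P hP
    have h2 := hw P hP
    simp only [Pi.add_apply, mul_add, Finset.sum_add_distrib, h1, h2, add_zero]
  zero_mem' := by
    intro P _
    simp
  smul_mem' := by
    intro c v hv P hP
    have h1 := hv P hP
    simp only [Pi.smul_apply, smul_eq_mul, mul_left_comm, ← Finset.mul_sum, h1, mul_zero]

/-- `y` represents a smooth point of `L^{-1}`: it is a nonzero point of the affine cone at which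
the Zariski tangent space of this irreducible variety has the least dimension. -/
def IsSmoothPoint (ℓ : Fin (n + 1) → Dual ℂ (Fin (d + 1) → ℂ)) (y : Fin (n + 1) → ℂ) : Prop :=
  y ∈ reciprocalCone ℓ ∧ y ≠ 0 ∧
    ∀ y' ∈ reciprocalCone ℓ, finrank ℂ (tangentSpace ℓ y) ≤ finrank ℂ (tangentSpace ℓ y')

/-- The coefficient vectors `u` of the hyperplanes `∑ u_i x_i = 0` that are tangent to `L^{-1}` at
some smooth point, together with the vector `0`. -/
def tangentHyperplanes (ℓ : Fin (n + 1) → Dual ℂ (Fin (d + 1) → ℂ)) : Set (Fin (n + 1) → ℂ) :=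
  {u | ∃ y, IsSmoothPoint ℓ y ∧ ∀ v ∈ tangentSpace ℓ y, ∑ i, u i * v i = 0}

/-- The affine cone over the dual variety `∇(L^{-1})`: the Zariski closure of the set of tangent
hyperplanes. -/
def dualCone (ℓ : Fin (n + 1) → Dual ℂ (Fin (d + 1) → ℂ)) : Set (Fin (n + 1) → ℂ) :=
  zeroLocus ℂ (vanishingIdeal ℂ (tangentHyperplanes ℓ))

lemma hyperplanes_eq (ℓ : Fin (n + 1) → Dual ℂ (Fin (d + 1) → ℂ)) :
    TH142.Recip.TH ℓ = tangentHyperplanes ℓ := by
  have h1 : ∀ y, TH142.Recip.Tan ℓ y = tangentSpace ℓ y := by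
    intro y
    ext v
    exact TH142.Recip.mem_Tan
  have h2 : ∀ y, finrank ℂ (TH142.Recip.Tan ℓ y) = finrank ℂ (tangentSpace ℓ y) :=
    fun y => congrArg (fun W : Submodule ℂ (Fin (n + 1) → ℂ) => finrank ℂ W) (h1 y)
  ext u
  constructor
  · rintro ⟨y, hy, hy0, hmin, hu⟩
    refine ⟨y, ⟨hy, hy0, fun y' hy' => ?_⟩, fun v hv => ?_⟩
    · rw [← h2, ← h2]
      exact hmin y' hy'
    · rw [← h1] at hv
      exact hu v hv
  · rintro ⟨y, ⟨hy, hy0, hmin⟩, hu⟩
    refine ⟨y, hy, hy0, fun y' hy' => ?_, fun v hv => ?_⟩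
    · rw [h2, h2]
      exact hmin y' hy'
    · rw [h1] at hv
      exact hu v hv

lemma vanishing_zeroLocus (A : Set (Fin (n + 1) → ℂ)) :
    vanishingIdeal ℂ (zeroLocus ℂ (vanishingIdeal ℂ A)) = vanishingIdeal ℂ A := by
  apply le_antisymm
  · exact vanishingIdeal_anti_mono (zeroLocus_vanishingIdeal_le A)
  · exact le_vanishingIdeal_zeroLocus _

/-- If `M(L)` is connected, the dual variety of `L^{-1}` is a hypersurface of degree
`2 ^ d β(L)`: the cone over it is the zero set of an irreducible homogeneous polynomial `Δ` of this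
degree, and `Δ` generates its ideal. -/
theorem result (n d : ℕ) (ℓ : Fin (n + 1) → Dual ℂ (Fin (d + 1) → ℂ))
    (hspan : Submodule.span ℂ (Set.range ℓ) = ⊤) (hconn : MatroidConnected ℓ) :
    ∃ Δ : MvPolynomial (Fin (n + 1)) ℂ, Irreducible Δ ∧ Δ.IsHomogeneous Δ.totalDegree ∧
      (Δ.totalDegree : ℤ) = 2 ^ d * beta ℓ ∧
      dualCone ℓ = {u | aeval u Δ = 0} ∧
      vanishingIdeal ℂ (dualCone ℓ) = Ideal.span {Δ} := by
  have hc : TH142.Recip.Conn ℓ := hconn
  have hℓ : ∀ i, ℓ i ≠ 0 := by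
    intro i hi
    by_cases h : ∃ e, e ≠ i
    · obtain ⟨e, he⟩ := h
      exact hc.no_loop he hi
    · push Not at h
      have h1 : Set.range ℓ = {0} := by
        ext φ
        constructor
        · rintro ⟨j, rfl⟩
          rw [h j, hi]; rfl
        · rintro rfl
          exact ⟨i, hi⟩
      rw [h1, Submodule.span_zero_singleton] at hspan
      have h2 : finrank ℂ (Dual ℂ (Fin (d + 1) → ℂ)) = d + 1 := by
        rw [Subspace.dual_finrank_eq, Module.finrank_fintype_fun_eq_card, Fintype.card_fin]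
      rw [← finrank_top, ← hspan, finrank_bot] at h2
      omega
  obtain ⟨Δ, h1, h2, h3, h4⟩ := TH142.Recip.main hspan hc hℓ 0
  rw [hyperplanes_eq] at h4
  refine ⟨Δ, h1, h2, ?_, ?_, ?_⟩
  · rw [Module.finrank_fintype_fun_eq_card, Fintype.card_fin, pow_succ] at h3
    have h5 : TH142.Recip.beta ℓ = beta ℓ := rfl
    rw [h5] at h3
    linarith
  · rw [dualCone, h4, zeroLocus_span]
    ext u
    simp
  · rw [dualCone, vanishing_zeroLocus, h4]

end Pool.Agent.Results.MP_0aec2a_ag.DualReciprocal
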